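import Pool.Agent.helper70.GB.SpecN

/-!
# Project gb, module FAB: commuting idempotent endomorphisms
-/

open Matrix

namespace GB

universe u

section

variable {A B : Type*} [CommRing A] [CommRing B] {n : ℕ}

theorem FAB_vecMul_map (f : A →+* B) (v : Fin n → A) (M : Matrix (Fin n) (Fin n) A) (j : Fin n) :
    f ((v ᵥ* M) j) = ((fun i => f (v i)) ᵥ* M.map f) j := by
  simp [Matrix.vecMul, dotProduct, map_sum, map_mul]

theorem FAB_single_map (f : A →+* B) (i₀ j : Fin n) :
    f (Pi.single (M := fun _ => A) i₀ 1 j) = Pi.single (M := fun _ => B) i₀ 1 j := by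
  by_cases h : j = i₀
  · subst h; simp
  · simp [Pi.single_eq_of_ne h]

theorem FAB_isUnit_det_map (f : A →+* B) {M : Matrix (Fin n) (Fin n) A} (h : IsUnit M.det) :
    IsUnit (M.map f).det := by
  have : (M.map f).det = f M.det := by
    rw [RingHom.map_det]; rfl
  rw [this]
  exact h.map f

theorem FAB_map_mul (f : A →+* B) (M N : Matrix (Fin n) (Fin n) A) :
    (M * N).map f = M.map f * N.map f := Matrix.map_mul

theorem FAB_map_one (f : A →+* B) : (1 : Matrix (Fin n) (Fin n) A).map f = 1 :=
  Matrix.map_one f (map_zero f) (map_one f)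

end

theorem FA : FA_stmt.{u} := by
  intro A _ s ρ hid hcomm n i₀ v hv hall
  have key : ∀ k : ℕ, k ≤ s → ∃ w : Fin n → A, GEq v w ∧
      ∀ i : Fin s, i.val < k → ∀ j, ρ i (w j) = Pi.single (M := fun _ => A) i₀ 1 j := by
    intro k
    induction k with
    | zero => intro _; exact ⟨v, GEq.refl v, fun i hi => absurd hi (Nat.not_lt_zero _)⟩
    | succ k ih =>
      intro hk
      obtain ⟨w, hw, hwk⟩ := ih (by omega)
      set i₁ : Fin s := ⟨k, by omega⟩ with hi₁
      set u : Fin n → (ρ i₁).range := fun j => (ρ i₁).rangeRestrict (w j) with hu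
      have hum : Um u := (hw.um hv).map (ρ i₁).rangeRestrict
      have hc := (hall i₁) u hum
      obtain ⟨M, hM, hMu⟩ := ((comp_iff_gEq_single i₀).1 hc).symm
      set g : Matrix (Fin n) (Fin n) A := M.map (ρ i₁).range.subtype with hg
      have hfix : g.map (ρ i₁) = g := by
        ext a b
        obtain ⟨y, hy⟩ := (M a b).2
        show ρ i₁ ((M a b : A)) = (M a b : A)
        rw [← hy]
        exact congrArg (fun f : A →+* A => f y) (hid i₁)
      have hgd : IsUnit g.det := FAB_isUnit_det_map _ hM
      have hu' : (fun j => (ρ i₁).range.subtype (u j)) = fun j => ρ i₁ (w j) := rfl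
      have he : ∀ j, ((fun j => ρ i₁ (w j)) ᵥ* g) j = Pi.single (M := fun _ => A) i₀ 1 j := by
        intro j
        have h1 := FAB_vecMul_map (ρ i₁).range.subtype u M j
        rw [← hMu, FAB_single_map] at h1
        rw [← hu', hg, ← h1]
      refine ⟨w ᵥ* g, hw.trans ⟨g, hgd, rfl⟩, ?_⟩
      intro i hi j
      rcases Nat.lt_succ_iff_lt_or_eq.1 hi with h | h
      · -- an earlier index
        rw [FAB_vecMul_map]
        have h1 : (fun j => ρ i (w j)) = fun j => Pi.single (M := fun _ => A) i₀ 1 j :=
          funext (hwk i h)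
        have h2 := congrArg (ρ i) (he j)
        rw [FAB_vecMul_map, FAB_single_map] at h2
        have h3 : (fun j => ρ i (ρ i₁ (w j))) = fun j => Pi.single (M := fun _ => A) i₀ 1 j := by
          funext j'
          have h4 : ρ i (ρ i₁ (w j')) = ρ i₁ (ρ i (w j')) :=
            congrArg (fun f : A →+* A => f (w j')) (hcomm i i₁)
          rw [h4, hwk i h j', FAB_single_map]
        rw [h3] at h2
        rw [h1]
        exact h2
      · have hii : i = i₁ := Fin.ext h
        rw [hii, FAB_vecMul_map, hfix]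
        exact he j
  obtain ⟨w, hw, hws⟩ := key s le_rfl
  exact ⟨w, hw, fun i j => hws i i.2 j⟩

theorem FB : FB_stmt.{u} := by
  intro A _ s ρ hid hcomm n i₀ v hv hρ
  have hv' := (comp_iff_gEq_single i₀).1 hv
  have key : ∀ k : ℕ, k ≤ s → ∃ g : Matrix (Fin n) (Fin n) A, IsUnit g.det ∧
      v = Pi.single i₀ 1 ᵥ* g ∧ ∀ i : Fin s, i.val < k → g.map (ρ i) = 1 := by
    intro k
    induction k with
    | zero =>
      intro _
      obtain ⟨g, hg, hg'⟩ := hv'
      exact ⟨g, hg, hg', fun i hi => absurd hi (Nat.not_lt_zero _)⟩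
    | succ k ih =>
      intro hk
      obtain ⟨g, hg, hgv, hgk⟩ := ih (by omega)
      set i₁ : Fin s := ⟨k, by omega⟩ with hi₁
      set N' : Matrix (Fin n) (Fin n) A := g⁻¹ with hN'
      have hgN : g * N' = 1 := Matrix.mul_nonsing_inv _ hg
      have hNg : N' * g = 1 := Matrix.nonsing_inv_mul _ hg
      set N : Matrix (Fin n) (Fin n) A := N'.map (ρ i₁) with hN
      have h1 : g.map (ρ i₁) * N = 1 := by
        rw [hN, ← FAB_map_mul, hgN, FAB_map_one]
      have h2 : N * g.map (ρ i₁) = 1 := by
        rw [hN, ← FAB_map_mul, hNg, FAB_map_one]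
      have h3 : N.map (ρ i₁) = N := by
        ext a b
        exact congrArg (fun f : A →+* A => f (N' a b)) (hid i₁)
      have h4 : IsUnit N.det := by
        rw [← Matrix.isUnit_iff_isUnit_det]
        exact ⟨⟨N, g.map (ρ i₁), h2, h1⟩, rfl⟩
      have h5 : (Pi.single i₀ 1 : Fin n → A) ᵥ* g.map (ρ i₁) = Pi.single i₀ 1 := by
        funext j
        have h6 := hρ i₁ j
        rw [hgv, FAB_vecMul_map] at h6
        have h7 : (fun i => ρ i₁ ((Pi.single i₀ 1 : Fin n → A) i)) = Pi.single i₀ 1 := by
          funext j'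
          exact FAB_single_map (ρ i₁) i₀ j'
        rw [h7] at h6
        exact h6
      have h6 : (Pi.single i₀ 1 : Fin n → A) ᵥ* N = Pi.single i₀ 1 := by
        conv_lhs => rw [← h5]
        rw [Matrix.vecMul_vecMul, h1, Matrix.vecMul_one]
      refine ⟨N * g, ?_, ?_, ?_⟩
      · rw [Matrix.det_mul]
        exact h4.mul hg
      · rw [← Matrix.vecMul_vecMul, h6]
        exact hgv
      · intro i hi
        rw [FAB_map_mul]
        rcases Nat.lt_succ_iff_lt_or_eq.1 hi with h | h
        · rw [hgk i h, Matrix.mul_one]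
          have h7 : N'.map (ρ i) = 1 := by
            have h8 : N'.map (ρ i) * g.map (ρ i) = 1 := by
              rw [← FAB_map_mul, hNg, FAB_map_one]
            rw [hgk i h, Matrix.mul_one] at h8
            exact h8
          have h8 : N.map (ρ i) = (N'.map (ρ i)).map (ρ i₁) := by
            ext a b
            exact congrArg (fun f : A →+* A => f (N' a b)) (hcomm i i₁)
          rw [h8, h7, FAB_map_one]
        · have hii : i = i₁ := Fin.ext h
          rw [hii, h3, h2]
  obtain ⟨g, hg, hgv, hgs⟩ := key s le_rfl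
  refine ⟨g, hg, ?_, fun i => hgs i i.2⟩
  rw [hgv, Matrix.single_one_vecMul]
  rfl

end GB
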