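import Pool.Agent.helper70.GB.SpecN

/-!
# Project gb, module IN: interior elements
-/

namespace GB

universe u

theorem IN : IN_stmt.{u} := by
  intro G _ M s a h1 h2 u hu
  obtain ⟨k1, hk1, hk1u⟩ := h2 u fun i => (hu i).le
  have claim : ∀ r : ℕ, ∃ N₀ : ℕ, ∀ N, N₀ ≤ N → (r + N * k1) • u ∈ M := by
    intro r
    obtain ⟨x, hx, y, hy, hxy⟩ := h1 (r • u)
    set N' : ℕ := ∑ i, (a i y).natAbs with hN'
    have hpos : ∀ i, 0 ≤ a i ((N' * k1) • u - y) := by
      intro i
      rw [map_sub, map_nsmul, nsmul_eq_mul]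
      have h3 : (a i y).natAbs ≤ N' :=
        Finset.single_le_sum (f := fun i => (a i y).natAbs) (fun _ _ => Nat.zero_le _)
          (Finset.mem_univ i)
      have h4 : a i y ≤ N' := by omega
      have h5 : (1 : ℤ) ≤ k1 * a i u := by
        have h6 : (1 : ℤ) ≤ k1 := by exact_mod_cast hk1
        have h7 := hu i
        nlinarith
      have h8 : (N' : ℤ) * 1 ≤ N' * (k1 * a i u) :=
        mul_le_mul_of_nonneg_left h5 (Int.natCast_nonneg _)
      push_cast
      linarith
    obtain ⟨c, hc, hcM⟩ := h2 _ hpos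
    have h3 : (c * N' * k1) • u - y ∈ M := by
      have h4 : (c * N' * k1) • u - y = c • ((N' * k1) • u - y) + (c - 1) • y := by
        obtain ⟨c', rfl⟩ : ∃ c', c = c' + 1 := ⟨c - 1, by omega⟩
        rw [Nat.add_sub_cancel, smul_sub, smul_smul, mul_assoc, add_smul (c' : ℕ) 1 y, one_smul]
        abel
      rw [h4]
      exact M.add_mem hcM (M.nsmul_mem hy _)
    refine ⟨c * N', fun N hN => ?_⟩
    obtain ⟨d, rfl⟩ := Nat.exists_eq_add_of_le hN
    have h4 : (r + (c * N' + d) * k1) • u = x + ((c * N' * k1) • u - y) + d • (k1 • u) := by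
      have h5 : x = r • u + y := by rw [hxy]; abel
      rw [h5, add_smul, add_mul, add_smul, smul_smul]
      abel
    rw [h4]
    exact M.add_mem (M.add_mem hx h3) (M.nsmul_mem hk1u _)
  choose f hf using claim
  refine ⟨k1 * ∑ r ∈ Finset.range k1, f r, fun k hk => ?_⟩
  have h3 : f (k % k1) ≤ ∑ r ∈ Finset.range k1, f r :=
    Finset.single_le_sum (f := f) (fun _ _ => Nat.zero_le _)
      (Finset.mem_range.2 (Nat.mod_lt _ (by omega)))
  have h4 : ∑ r ∈ Finset.range k1, f r ≤ k / k1 := by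
    rw [Nat.le_div_iff_mul_le (by omega), mul_comm]
    exact hk
  have h5 := hf (k % k1) (k / k1) (h3.trans h4)
  have h6 : k % k1 + k / k1 * k1 = k := by
    rw [mul_comm]
    exact Nat.mod_add_div k k1
  rw [h6] at h5
  exact h5

end GB
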