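import Pool.Agent.helper70.GB.SpecN
import Pool.Agent.helper89.GB.LG

/-!
# Project gb, module QM: Quillen patching for positively graded monoid algebras
-/

open Matrix Polynomial

namespace GB

universe u

section

variable {C P : Type u} [CommRing C] [AddCommMonoid P]

/-- the homomorphism `x^m ↦ x^m X^(deg m)` -/
noncomputable def QM_psi (deg : P →+ ℕ) :
    AddMonoidAlgebra C P →ₐ[C] (AddMonoidAlgebra C P)[X] :=
  AddMonoidAlgebra.lift C (AddMonoidAlgebra C P)[X] P
    { toFun := fun m => Polynomial.C (AddMonoidAlgebra.single (Multiplicative.toAdd m) 1) *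
        X ^ deg (Multiplicative.toAdd m)
      map_one' := by
        rw [toAdd_one, map_zero, pow_zero, mul_one, ← AddMonoidAlgebra.one_def, Polynomial.C_1]
      map_mul' := by
        intro a b
        rw [toAdd_mul, map_add, pow_add, ← one_mul (1 : C), ← AddMonoidAlgebra.single_mul_single,
          Polynomial.C_mul, one_mul]
        ring }

theorem QM_psi_single (deg : P →+ ℕ) (m : P) (r : C) :
    QM_psi deg (AddMonoidAlgebra.single m r) =
      Polynomial.C (AddMonoidAlgebra.single m r) * X ^ deg m := by
  unfold QM_psi
  rw [AddMonoidAlgebra.lift_single]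
  show r • (Polynomial.C (AddMonoidAlgebra.single m (1 : C)) * X ^ deg m) = _
  rw [← smul_mul_assoc, Polynomial.smul_C, AddMonoidAlgebra.smul_single, smul_eq_mul, mul_one]

theorem QM_eval (deg : P →+ ℕ) (s : AddMonoidAlgebra C P) : (QM_psi deg s).eval 1 = s := by
  induction s using AddMonoidAlgebra.induction_linear with
  | zero => simp
  | add f g hf hg => rw [map_add, eval_add, hf, hg]
  | single m r => rw [QM_psi_single]; simp

theorem QM_coeff (deg : P →+ ℕ) (hdeg : ∀ m, deg m = 0 → m = 0) (s : AddMonoidAlgebra C P) :
    (QM_psi deg s).coeff 0 = AddMonoidAlgebra.single 0 (s.coeff 0) := by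
  induction s using AddMonoidAlgebra.induction_linear with
  | zero => simp
  | add f g hf hg =>
    rw [map_add, Polynomial.coeff_add, hf, hg, AddMonoidAlgebra.coeff_add, Finsupp.add_apply,
      AddMonoidAlgebra.single_add]
  | single m r =>
    rw [QM_psi_single, Polynomial.coeff_C_mul, Polynomial.coeff_X_pow]
    by_cases h : m = 0
    · subst h
      simp
    · have h1 : deg m ≠ 0 := fun h' => h (hdeg m h')
      rw [if_neg (Ne.symm h1), mul_zero, AddMonoidAlgebra.coeff_single,
        Finsupp.single_eq_of_ne (Ne.symm h), AddMonoidAlgebra.single_zero]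

end

theorem QM : QM_stmt.{u} := by
  intro C P _ _ deg hdeg ι _ _ v hv hloc
  have key := LG_graded (R := C) (QM_psi deg) (QM_eval deg) v hv ?_
  · have h1 : (fun i => (QM_psi deg (v i)).coeff 0) =
        fun i => AddMonoidAlgebra.single 0 ((v i).coeff 0) := by
      funext i
      exact QM_coeff deg hdeg (v i)
    rw [h1] at key
    exact key
  · intro m hm
    set W : Submonoid (AddMonoidAlgebra C P) :=
      Algebra.algebraMapSubmonoid (AddMonoidAlgebra C P) m.primeCompl with hW
    set L := Localization W with hL
    have hu : ∀ y : m.primeCompl, IsUnit (((algebraMap (AddMonoidAlgebra C P) L).comp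
        (algebraMap C (AddMonoidAlgebra C P))) y) := by
      rintro ⟨y, hy⟩
      exact IsLocalization.map_units L (⟨algebraMap C _ y, ⟨y, hy, rfl⟩⟩ : W)
    let f : Localization.AtPrime m →+* L := IsLocalization.lift hu
    let g : Multiplicative P →* L :=
      { toFun := fun q => algebraMap (AddMonoidAlgebra C P) L
          (AddMonoidAlgebra.single (Multiplicative.toAdd q) 1)
        map_one' := by
          rw [toAdd_one, ← AddMonoidAlgebra.one_def, map_one]
        map_mul' := by
          intro a b
          rw [toAdd_mul, ← map_mul, AddMonoidAlgebra.single_mul_single, one_mul] }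
    let φ : AddMonoidAlgebra (Localization.AtPrime m) P →+* L :=
      AddMonoidAlgebra.liftNCRingHom f g (fun x y => Commute.all _ _)
    have hφ : ∀ x : AddMonoidAlgebra C P,
        φ (cmap P (algebraMap C (Localization.AtPrime m)) x) =
          algebraMap (AddMonoidAlgebra C P) L x := by
      intro x
      induction x using AddMonoidAlgebra.induction_linear with
      | zero => simp
      | add a b ha hb => rw [map_add, map_add, map_add, ha, hb]
      | single q r =>
        have h1 : cmap P (algebraMap C (Localization.AtPrime m)) (AddMonoidAlgebra.single q r) =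
            AddMonoidAlgebra.single q (algebraMap C (Localization.AtPrime m) r) :=
          AddMonoidAlgebra.mapRingHom_single _ _ _
        rw [h1]
        have h2 : φ (AddMonoidAlgebra.single q (algebraMap C (Localization.AtPrime m) r)) =
            f (algebraMap C (Localization.AtPrime m) r) * g (Multiplicative.ofAdd q) :=
          AddMonoidAlgebra.liftNCRingHom_single _ _ _ _ _
        have h3 : f (algebraMap C (Localization.AtPrime m) r) =
            algebraMap (AddMonoidAlgebra C P) L (algebraMap C (AddMonoidAlgebra C P) r) :=
          IsLocalization.lift_eq hu r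
        rw [h2, h3]
        show _ * algebraMap (AddMonoidAlgebra C P) L (AddMonoidAlgebra.single q 1) = _
        rw [← map_mul]
        congr 1
        rw [← Algebra.smul_def, AddMonoidAlgebra.smul_single, smul_eq_mul, mul_one]
    have h1 := (hloc m).map φ
    have h2 : (fun i => φ (cmap P (algebraMap C (Localization.AtPrime m)) (v i))) =
        fun i => algebraMap (AddMonoidAlgebra C P) L (v i) := by
      funext i
      exact hφ (v i)
    rw [h2] at h1
    exact h1

end GB
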